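import Mathlib

/-! The first Dirichlet eigenvalue: a positive eigenfunction realises the infimum of the
Rayleigh quotient over smooth compactly supported functions. -/

set_option autoImplicit false

open MeasureTheory Laplacian InnerProductSpace Filter Topology Set
open scoped ContDiff

namespace Pool.Agent.Q175.TR

variable {E : Type*} [NormedAddCommGroup E] [InnerProductSpace ℝ E] [FiniteDimensional ℝ E]
  [MeasurableSpace E] [BorelSpace E]

/-- The set of Rayleigh quotients of the nonzero smooth functions compactly supported in `Ω`. -/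
def rayleigh (Ω : Set E) : Set ℝ :=
  {r | ∃ v : E → ℝ, ContDiff ℝ ∞ v ∧ HasCompactSupport v ∧ tsupport v ⊆ Ω ∧ (∃ x, v x ≠ 0) ∧
    r = (∫ x, ‖gradient v x‖ ^ 2) / ∫ x, v x ^ 2}

omit [MeasurableSpace E] [BorelSpace E] in
lemma inner_grad {f g : E → ℝ} (x : E) :
    inner ℝ (gradient f x) (gradient g x) = ∑ i, fderiv ℝ f x (stdOrthonormalBasis ℝ E i) *
      fderiv ℝ g x (stdOrthonormalBasis ℝ E i) := by
  rw [← OrthonormalBasis.sum_inner_mul_inner (stdOrthonormalBasis ℝ E)]
  refine Finset.sum_congr rfl fun i _ => ?_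
  have h1 : ∀ (f : E → ℝ) (v : E), inner ℝ (gradient f x) v = fderiv ℝ f x v := by
    intro f v
    simp [gradient]
  rw [h1 f, real_inner_comm, h1 g]

omit [MeasurableSpace E] [BorelSpace E] in
lemma laplacian_sum {f : E → ℝ} (hf : ContDiff ℝ 2 f) (x : E) :
    Δ f x = ∑ i, fderiv ℝ (fun y => fderiv ℝ f y (stdOrthonormalBasis ℝ E i)) x
      (stdOrthonormalBasis ℝ E i) := by
  rw [laplacian_eq_iteratedFDeriv_stdOrthonormalBasis f]
  refine Finset.sum_congr rfl fun i _ => ?_
  rw [iteratedFDeriv_two_apply]
  have h1 : DifferentiableAt ℝ (fderiv ℝ f) x :=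
    (hf.fderiv_right (m := 1) (by norm_num)).differentiable (by norm_num) x
  rw [fderiv_clm_apply h1 (differentiableAt_const _)]
  simp

/-- Green's first identity. -/
lemma green1 {v F : E → ℝ} (hv : ContDiff ℝ 1 v) (hc : HasCompactSupport v)
    (hF : ContDiff ℝ 2 F) :
    ∫ x, inner ℝ (gradient v x) (gradient F x) = -∫ x, v x * Δ F x := by
  have hdc : ∀ e : E, HasCompactSupport (fun x => fderiv ℝ v x e) := fun e =>
    (hc.fderiv (𝕜 := ℝ)).comp_left (g := fun L : E →L[ℝ] ℝ => L e) (by simp)
  have hdv : ∀ e : E, Continuous (fun x => fderiv ℝ v x e) := fun e =>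
    (hv.continuous_fderiv (by norm_num)).clm_apply continuous_const
  have hF1 : ∀ e : E, ContDiff ℝ 1 (fun x => fderiv ℝ F x e) := fun e =>
    (hF.fderiv_right (m := 1) (by norm_num)).clm_apply contDiff_const
  have hF2 : ∀ e : E, Continuous (fun x => fderiv ℝ (fun y => fderiv ℝ F y e) x e) := fun e =>
    ((hF1 e).continuous_fderiv (by norm_num)).clm_apply continuous_const
  have key : ∀ e : E, ∫ x, fderiv ℝ v x e * fderiv ℝ F x e =
      -∫ x, v x * fderiv ℝ (fun y => fderiv ℝ F y e) x e := by
    intro e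
    have s := integral_mul_fderiv_eq_neg_fderiv_mul_of_integrable (μ := volume) (f := v)
      (g := fun y => fderiv ℝ F y e) (v := e)
      (((hdv e).mul (hF1 e).continuous).integrable_of_hasCompactSupport (hdc e).mul_right)
      ((hv.continuous.mul (hF2 e)).integrable_of_hasCompactSupport hc.mul_right)
      ((hv.continuous.mul (hF1 e).continuous).integrable_of_hasCompactSupport hc.mul_right)
      (fun x _ => hv.differentiable (by norm_num) x)
      (fun x _ => (hF1 e).differentiable (by norm_num) x)
    rw [s, neg_neg]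
  simp_rw [inner_grad, laplacian_sum hF, Finset.mul_sum]
  rw [integral_finsetSum, integral_finsetSum, ← Finset.sum_neg_distrib]
  · exact Finset.sum_congr rfl fun i _ => key _
  · intro i _
    exact (hv.continuous.mul (hF2 _)).integrable_of_hasCompactSupport hc.mul_right
  · intro i _
    exact ((hdv _).mul (hF1 _).continuous).integrable_of_hasCompactSupport (hdc _).mul_right

omit [MeasurableSpace E] [BorelSpace E] in
lemma grad_cont {f : E → ℝ} (hf : ContDiff ℝ 1 f) : Continuous (gradient f) :=
  (toDual ℝ E).symm.continuous.comp (hf.continuous_fderiv (by norm_num))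

omit [MeasurableSpace E] [BorelSpace E] in
lemma grad_supp {f : E → ℝ} (hf : HasCompactSupport f) : HasCompactSupport (gradient f) :=
  (hf.fderiv (𝕜 := ℝ)).comp_left (g := (toDual ℝ E).symm) (map_zero _)

/-- The lower bound for the Rayleigh quotient (Jacobi's substitution). -/
lemma lower {Ω : Set E} {F : E → ℝ} {lam : ℝ} (hF : ContDiff ℝ ∞ F)
    (hpos : ∀ x ∈ Ω, 0 < F x) (heq : ∀ x ∈ Ω, -Δ F x = lam * F x)
    {v : E → ℝ} (hv : ContDiff ℝ ∞ v) (hc : HasCompactSupport v) (hsub : tsupport v ⊆ Ω) :
    lam * ∫ x, v x ^ 2 ≤ ∫ x, ‖gradient v x‖ ^ 2 := by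
  have hF2 : ContDiff ℝ 2 F := hF.of_le (WithTop.coe_le_coe.mpr le_top)
  have hF1 : ContDiff ℝ 1 F := hF.of_le (WithTop.coe_le_coe.mpr le_top)
  have hv1 : ContDiff ℝ 1 v := hv.of_le (WithTop.coe_le_coe.mpr le_top)
  set w : E → ℝ := fun x => v x / F x with hw
  have hwz : ∀ x, x ∉ tsupport v → w =ᶠ[𝓝 x] fun _ => 0 := by
    intro x hx
    filter_upwards [(isClosed_tsupport v).isOpen_compl.mem_nhds hx] with y hy
    simp only [hw]
    rw [image_eq_zero_of_notMem_tsupport hy, zero_div]
  have hw1 : ContDiff ℝ 1 w := by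
    rw [contDiff_iff_contDiffAt]
    intro x
    by_cases hx : x ∈ tsupport v
    · exact hv1.contDiffAt.div hF1.contDiffAt (hpos x (hsub hx)).ne'
    · exact contDiffAt_const.congr_of_eventuallyEq (hwz x hx)
  have hvw : ∀ x, v x = F x * w x := by
    intro x
    by_cases hx : x ∈ tsupport v
    · simp only [hw]
      have := (hpos x (hsub hx)).ne'
      field_simp
    · have h1 : v x = 0 := image_eq_zero_of_notMem_tsupport hx
      simp only [hw]
      rw [h1]; simp
  have hvw' : v = fun x => F x * w x := funext hvw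
  have hwc : HasCompactSupport w := by
    have : HasCompactSupport (fun x => v x * (F x)⁻¹) := hc.mul_right
    simpa [hw, div_eq_mul_inv] using this
  set z : E → ℝ := fun x => w x ^ 2 * F x with hz
  have hz1 : ContDiff ℝ 1 z := (hw1.pow 2).mul hF1
  have hzc : HasCompactSupport z := by
    have : HasCompactSupport (fun x => w x * (w x * F x)) := hwc.mul_right
    have e : z = fun x => w x * (w x * F x) := by ext x; simp only [hz]; ring
    rw [e]; exact this
  have hdw : ∀ x, HasGradientAt w (gradient w x) x := fun x =>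
    (hw1.differentiable (by norm_num) x).hasGradientAt
  have hdF : ∀ x, HasGradientAt F (gradient F x) x := fun x =>
    (hF1.differentiable (by norm_num) x).hasGradientAt
  have hgv : ∀ x, gradient v x = F x • gradient w x + w x • gradient F x := by
    intro x
    have h := (hdF x).hasFDerivAt.mul (hdw x).hasFDerivAt
    have h' : HasGradientAt v (F x • gradient w x + w x • gradient F x) x := by
      rw [hasGradientAt_iff_hasFDerivAt, hvw']
      refine h.congr_fderiv ?_
      simp
    exact h'.gradient
  have hgz : ∀ x, gradient z x = (2 * w x * F x) • gradient w x + (w x ^ 2) • gradient F x := by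
    intro x
    have h := ((hdw x).hasFDerivAt.pow 2).mul (hdF x).hasFDerivAt
    have h' : HasGradientAt z ((2 * w x * F x) • gradient w x + (w x ^ 2) • gradient F x) x := by
      rw [hasGradientAt_iff_hasFDerivAt]
      refine h.congr_fderiv ?_
      ext y
      simp
      ring
    exact h'.gradient
  have hpt : ∀ x, inner ℝ (gradient z x) (gradient F x) ≤ ‖gradient v x‖ ^ 2 := by
    intro x
    rw [hgz, hgv, ← real_inner_self_eq_norm_sq]
    simp only [inner_add_left, inner_add_right, real_inner_smul_left, real_inner_smul_right]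
    rw [real_inner_comm (gradient F x) (gradient w x)]
    have h1 : 0 ≤ inner ℝ (gradient w x) (gradient w x) := real_inner_self_nonneg
    nlinarith [mul_nonneg (sq_nonneg (F x)) h1]
  have hgr := green1 hz1 hzc hF2
  have he : ∀ x, z x * Δ F x = -(lam * v x ^ 2) := by
    intro x
    by_cases hx : x ∈ tsupport v
    · have h1 := heq x (hsub hx)
      rw [hvw x]
      simp only [hz]
      have h2 : Δ F x = -(lam * F x) := by linarith
      rw [h2]; ring
    · have h1 : v x = 0 := image_eq_zero_of_notMem_tsupport hx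
      have h2 : w x = 0 := (hwz x hx).self_of_nhds
      simp only [hz]
      rw [h1, h2]; ring
  simp only [he] at hgr
  rw [integral_neg, neg_neg, integral_const_mul] at hgr
  rw [← hgr]
  have hs1 : HasCompactSupport (fun x => inner ℝ (gradient z x) (gradient F x)) := by
    refine (grad_supp hzc).mono fun x hx => ?_
    rw [Function.mem_support] at hx ⊢
    intro h0
    apply hx
    rw [h0, inner_zero_left]
  have hs2 : HasCompactSupport (fun x => ‖gradient v x‖ ^ 2) := by
    refine (grad_supp hc).mono fun x hx => ?_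
    rw [Function.mem_support] at hx ⊢
    intro h0
    apply hx
    rw [h0]; simp
  have hi1 : Integrable (fun x => inner ℝ (gradient z x) (gradient F x)) :=
    ((grad_cont hz1).inner (grad_cont hF1)).integrable_of_hasCompactSupport hs1
  have hi2 : Integrable (fun x => ‖gradient v x‖ ^ 2) :=
    ((grad_cont hv1).norm.pow 2).integrable_of_hasCompactSupport hs2
  exact integral_mono hi1 hi2 hpt

/-- the truncations -/
noncomputable def th (s : ℝ) : ℝ := Real.smoothTransition (s - 1)

lemma th_smooth : ContDiff ℝ ∞ th :=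
  Real.smoothTransition.contDiff.comp (contDiff_id.sub contDiff_const)

lemma th_zero {s : ℝ} (hs : s ≤ 1) : th s = 0 := Real.smoothTransition.zero_of_nonpos (by linarith)

lemma th_one {s : ℝ} (hs : 2 ≤ s) : th s = 1 := Real.smoothTransition.one_of_one_le (by linarith)

lemma th_nonneg (s : ℝ) : 0 ≤ th s := Real.smoothTransition.nonneg _

lemma th_le_one (s : ℝ) : th s ≤ 1 := Real.smoothTransition.le_one _

/-- the derivative of `s ↦ s * th s` -/
noncomputable def dth (s : ℝ) : ℝ := th s + s * deriv th s

lemma hasDerivAt_th (s : ℝ) : HasDerivAt th (deriv th s) s :=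
  (th_smooth.differentiable (by simp) s).hasDerivAt

lemma deriv_th_zero {s : ℝ} (hs : 2 < s) : deriv th s = 0 := by
  have : th =ᶠ[𝓝 s] fun _ => 1 := by
    filter_upwards [Ioi_mem_nhds hs] with t ht
    exact th_one (le_of_lt ht)
  rw [this.deriv_eq]; simp

lemma dth_one {s : ℝ} (hs : 2 < s) : dth s = 1 := by
  unfold dth
  rw [deriv_th_zero hs, th_one hs.le]; simp

lemma dth_cont : Continuous dth := by
  have h1 : Continuous (deriv th) := th_smooth.continuous_deriv (by simp)
  have h2 := th_smooth.continuous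
  unfold dth
  fun_prop

lemma dth_bdd : ∃ C : ℝ, ∀ s, 0 ≤ s → |dth s| ≤ C := by
  obtain ⟨C, hC⟩ := (isCompact_Icc (a := (0:ℝ)) (b := 2)).exists_bound_of_continuousOn
    dth_cont.continuousOn
  refine ⟨max C 1, fun s hs => ?_⟩
  by_cases h : s ≤ 2
  · exact (hC s ⟨hs, h⟩).trans (le_max_left _ _)
  · rw [dth_one (by linarith), abs_one]; exact le_max_right _ _

/-- Dominated convergence on a bounded set. -/
lemma dct {Ω : Set E} (hΩ : MeasurableSet Ω) {G : E → ℝ} (hG : IntegrableOn G Ω)
    {c : ℕ → E → ℝ} {C : ℝ} (hc : ∀ n, Measurable (c n)) (hb : ∀ n, ∀ x ∈ Ω, |c n x| ≤ C)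
    (hlim : ∀ x ∈ Ω, Tendsto (fun n => c n x) atTop (𝓝 1)) :
    Tendsto (fun n => ∫ x in Ω, c n x * G x) atTop (𝓝 (∫ x in Ω, G x)) := by
  apply tendsto_integral_of_dominated_convergence (fun x => C * |G x|)
  · intro n
    exact (hc n).aestronglyMeasurable.mul hG.aestronglyMeasurable
  · exact hG.abs.const_mul C
  · intro n
    filter_upwards [ae_restrict_mem hΩ] with x hx
    rw [Real.norm_eq_abs, abs_mul]
    exact mul_le_mul_of_nonneg_right (hb n x hx) (abs_nonneg _)
  · filter_upwards [ae_restrict_mem hΩ] with x hx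
    have := (hlim x hx).mul_const (G x)
    simpa using this

/-- **A positive eigenfunction realises the first Dirichlet eigenvalue.** -/
theorem isGLB_rayleigh {Ω : Set E} (hΩ : IsOpen Ω) (hne : Ω.Nonempty) (hbd : Bornology.IsBounded Ω)
    {F : E → ℝ} {lam : ℝ} (hF : ContDiff ℝ ∞ F)
    (hpos : ∀ x ∈ Ω, 0 < F x) (heq : ∀ x ∈ Ω, -Δ F x = lam * F x)
    (hfr : ∀ x ∈ frontier Ω, F x = 0) : IsGLB (rayleigh Ω) lam := by
  have hF2 : ContDiff ℝ 2 F := hF.of_le (WithTop.coe_le_coe.mpr le_top)
  have hF1 : ContDiff ℝ 1 F := hF.of_le (WithTop.coe_le_coe.mpr le_top)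
  have hsqpos : ∀ v : E → ℝ, Continuous v → HasCompactSupport v → (∃ x, v x ≠ 0) →
      0 < ∫ x, v x ^ 2 := by
    intro v hv hc ⟨x, hx⟩
    have hc2 : HasCompactSupport (fun x => v x ^ 2) := hc.comp_left (g := fun y : ℝ => y ^ 2) (by simp)
    exact (hv.pow 2).integral_pos_of_hasCompactSupport_nonneg_nonzero hc2 (fun x => sq_nonneg _)
      (x := x) (by simp [hx])
  constructor
  · rintro r ⟨v, hv, hc, hsub, hex, rfl⟩
    rw [le_div_iff₀ (hsqpos v hv.continuous hc hex)]
    exact lower hF hpos heq hv hc hsub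
  · intro b hb
    obtain ⟨C, hC⟩ := dth_bdd
    -- the test functions
    set v : ℕ → E → ℝ := fun n => Ω.indicator (fun x => F x * th ((n + 1 : ℝ) * F x)) with hv
    have hvin : ∀ n, ∀ x ∈ Ω, v n =ᶠ[𝓝 x] fun x => F x * th ((n + 1 : ℝ) * F x) := by
      intro n x hx
      filter_upwards [hΩ.mem_nhds hx] with y hy
      simp only [hv]
      rw [indicator_of_mem hy]
    have hvout : ∀ n, ∀ x ∉ Ω, v n =ᶠ[𝓝 x] fun _ => 0 := by
      intro n x hx
      by_cases hx2 : x ∈ closure Ω
      · have hfx : F x = 0 := hfr x ⟨hx2, by rwa [hΩ.interior_eq]⟩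
        have hev : ∀ᶠ y in 𝓝 x, (n + 1 : ℝ) * F y < 1 := by
          have hcont : ContinuousAt (fun y => (n + 1 : ℝ) * F y) x :=
            (continuous_const.mul hF.continuous).continuousAt
          apply hcont.eventually_lt continuousAt_const
          simp [hfx]
        filter_upwards [hev] with y hy
        simp only [hv]
        by_cases hy2 : y ∈ Ω
        · rw [indicator_of_mem hy2, th_zero hy.le, mul_zero]
        · rw [indicator_of_notMem hy2]
      · filter_upwards [isClosed_closure.isOpen_compl.mem_nhds hx2] with y hy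
        simp only [hv]
        rw [indicator_of_notMem (fun h => hy (subset_closure h))]
    have hFt : ∀ n : ℕ, ContDiff ℝ ∞ (fun x => F x * th ((n + 1 : ℝ) * F x)) := fun n =>
      hF.mul (th_smooth.comp (contDiff_const.mul hF))
    have hvs : ∀ n, ContDiff ℝ ∞ (v n) := by
      intro n
      rw [contDiff_iff_contDiffAt]
      intro x
      by_cases hx : x ∈ Ω
      · exact (hFt n).contDiffAt.congr_of_eventuallyEq (hvin n x hx)
      · exact contDiffAt_const.congr_of_eventuallyEq (hvout n x hx)
    have hsub : ∀ n, tsupport (v n) ⊆ Ω := by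
      intro n x hx
      by_contra h
      exact (notMem_tsupport_iff_eventuallyEq.mpr (hvout n x h)) hx
    have hcs : ∀ n, HasCompactSupport (v n) := by
      intro n
      exact (Metric.isCompact_of_isClosed_isBounded (isClosed_tsupport _) (hbd.subset (hsub n)))
    have hvgrad : ∀ n, ∀ x ∈ Ω, gradient (v n) x = dth ((n + 1 : ℝ) * F x) • gradient F x := by
      intro n x hx
      have hdF : HasFDerivAt F (toDual ℝ E (gradient F x)) x :=
        (hF1.differentiable (by norm_num) x).hasGradientAt.hasFDerivAt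
      have h1 : HasDerivAt (fun s : ℝ => s * th ((n + 1 : ℝ) * s)) (dth ((n + 1 : ℝ) * F x)) (F x) := by
        have h2 : HasDerivAt (fun s : ℝ => th ((n + 1 : ℝ) * s)) (deriv th ((n + 1 : ℝ) * F x) * (n + 1 : ℝ)) (F x) := by
          have h3 : HasDerivAt (fun s : ℝ => (n + 1 : ℝ) * s) (n + 1 : ℝ) (F x) := by
            simpa using (hasDerivAt_id (F x)).const_mul (n + 1 : ℝ)
          exact (hasDerivAt_th _).comp (F x) h3
        have h4 := (hasDerivAt_id (F x)).mul h2
        refine h4.congr_deriv ?_
        unfold dth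
        simp
        ring
      have h5 := h1.comp_hasFDerivAt x hdF
      have h6 : HasGradientAt (v n) (dth ((n + 1 : ℝ) * F x) • gradient F x) x := by
        rw [hasGradientAt_iff_hasFDerivAt]
        refine (h5.congr_of_eventuallyEq (hvin n x hx)).congr_fderiv ?_
        simp
      exact h6.gradient
    have hvgz : ∀ n, ∀ x ∉ Ω, gradient (v n) x = 0 := by
      intro n x hx
      have h6 : HasGradientAt (v n) 0 x := by
        rw [hasGradientAt_iff_hasFDerivAt]
        refine ((hasFDerivAt_const (0:ℝ) x).congr_of_eventuallyEq (hvout n x hx)).congr_fderiv ?_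
        simp
      exact h6.gradient
    have hvI : ∀ n, ∀ x ∈ Ω, v n x = F x * th ((n + 1 : ℝ) * F x) := fun n x hx =>
      indicator_of_mem hx _
    have hvz : ∀ n, ∀ x ∉ Ω, v n x = 0 := fun n x hx => indicator_of_notMem hx _
    -- integrability on Ω
    have hint : ∀ G : E → ℝ, Continuous G → IntegrableOn G Ω := fun G hG =>
      (hG.continuousOn.integrableOn_compact (hbd.isCompact_closure)).mono_set subset_closure
    have hmeas : ∀ n : ℕ, Measurable (fun x => (n + 1 : ℝ) * F x) := fun n =>
      (continuous_const.mul hF.continuous).measurable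
    have hlarge : ∀ x ∈ Ω, ∀ᶠ n : ℕ in atTop, 2 < (n + 1 : ℝ) * F x := by
      intro x hx
      have h1 : Tendsto (fun n : ℕ => ((n : ℝ) + 1) * F x) atTop atTop :=
        (tendsto_natCast_atTop_atTop.atTop_add tendsto_const_nhds).atTop_mul_const (hpos x hx)
      exact h1.eventually_gt_atTop 2
    have hl1 : ∀ x ∈ Ω, Tendsto (fun n : ℕ => dth ((n + 1 : ℝ) * F x)) atTop (𝓝 1) := fun x hx =>
      tendsto_const_nhds.congr' (by
        filter_upwards [hlarge x hx] with n hn
        rw [dth_one hn])
    have hl2 : ∀ x ∈ Ω, Tendsto (fun n : ℕ => th ((n + 1 : ℝ) * F x)) atTop (𝓝 1) := fun x hx =>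
      tendsto_const_nhds.congr' (by
        filter_upwards [hlarge x hx] with n hn
        rw [th_one hn.le])
    have hnn : ∀ n : ℕ, ∀ x ∈ Ω, 0 ≤ (n + 1 : ℝ) * F x := fun n x hx =>
      mul_nonneg (by positivity) (hpos x hx).le
    have hC0 : 0 ≤ C := (abs_nonneg _).trans (hC 0 le_rfl)
    -- the four limits
    have D1 : Tendsto (fun n => ∫ x, ‖gradient (v n) x‖ ^ 2) atTop (𝓝 (∫ x in Ω, ‖gradient F x‖ ^ 2)) := by
      have h := dct (G := fun x => ‖gradient F x‖ ^ 2) (c := fun n x => dth ((n + 1 : ℝ) * F x) ^ 2) (C := C ^ 2) hΩ.measurableSet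
        (hint _ ((grad_cont hF1).norm.pow 2)) (fun n => (dth_cont.measurable.comp (hmeas n)).pow_const 2)
        (fun n x hx => by
          rw [abs_pow]
          exact pow_le_pow_left₀ (abs_nonneg _) (hC _ (hnn n x hx)) 2)
        (fun x hx => by simpa using (hl1 x hx).pow 2)
      refine h.congr fun n => ?_
      have e : ∫ x, ‖gradient (v n) x‖ ^ 2 = ∫ x in Ω, ‖gradient (v n) x‖ ^ 2 := by
        rw [setIntegral_eq_integral_of_forall_compl_eq_zero]
        intro x hx
        rw [hvgz n x hx]; simp
      rw [e]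
      refine setIntegral_congr_fun hΩ.measurableSet fun x hx => ?_
      rw [hvgrad n x hx, norm_smul, mul_pow, Real.norm_eq_abs, sq_abs]
    have D2 : Tendsto (fun n => ∫ x, inner ℝ (gradient (v n) x) (gradient F x)) atTop
        (𝓝 (∫ x in Ω, ‖gradient F x‖ ^ 2)) := by
      have h := dct (G := fun x => ‖gradient F x‖ ^ 2) (c := fun n x => dth ((n + 1 : ℝ) * F x)) (C := C) hΩ.measurableSet
        (hint _ ((grad_cont hF1).norm.pow 2)) (fun n => (dth_cont.measurable.comp (hmeas n)))
        (fun n x hx => hC _ (hnn n x hx)) hl1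
      refine h.congr fun n => ?_
      have e : ∫ x, inner ℝ (gradient (v n) x) (gradient F x) =
          ∫ x in Ω, inner ℝ (gradient (v n) x) (gradient F x) := by
        rw [setIntegral_eq_integral_of_forall_compl_eq_zero]
        intro x hx
        rw [hvgz n x hx, inner_zero_left]
      rw [e]
      refine setIntegral_congr_fun hΩ.measurableSet fun x hx => ?_
      rw [hvgrad n x hx, real_inner_smul_left, real_inner_self_eq_norm_sq]
    have D3 : Tendsto (fun n => ∫ x, v n x ^ 2) atTop (𝓝 (∫ x in Ω, F x ^ 2)) := by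
      have h := dct (G := fun x => F x ^ 2) (c := fun n x => th ((n + 1 : ℝ) * F x) ^ 2) (C := 1) hΩ.measurableSet
        (hint _ (hF.continuous.pow 2)) (fun n => (th_smooth.continuous.measurable.comp (hmeas n)).pow_const 2)
        (fun n x hx => by
          rw [abs_pow]
          exact pow_le_one₀ (abs_nonneg _) (abs_le.mpr ⟨by linarith [th_nonneg ((n + 1 : ℝ) * F x)], th_le_one _⟩))
        (fun x hx => by simpa using (hl2 x hx).pow 2)
      refine h.congr fun n => ?_
      have e : ∫ x, v n x ^ 2 = ∫ x in Ω, v n x ^ 2 := by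
        rw [setIntegral_eq_integral_of_forall_compl_eq_zero]
        intro x hx
        rw [hvz n x hx]; simp
      rw [e]
      refine setIntegral_congr_fun hΩ.measurableSet fun x hx => ?_
      rw [hvI n x hx]; ring
    have D4 : Tendsto (fun n => ∫ x, v n x * Δ F x) atTop (𝓝 (-(lam * ∫ x in Ω, F x ^ 2))) := by
      have h := (dct (G := fun x => F x ^ 2) (c := fun n x => th ((n + 1 : ℝ) * F x)) (C := 1) hΩ.measurableSet
        (hint _ (hF.continuous.pow 2)) (fun n => (th_smooth.continuous.measurable.comp (hmeas n)))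
        (fun n x hx => (abs_le.mpr ⟨by linarith [th_nonneg ((n + 1 : ℝ) * F x)], th_le_one _⟩)) hl2).const_mul (-lam)
      rw [neg_mul] at h
      refine h.congr fun n => ?_
      have e : ∫ x, v n x * Δ F x = ∫ x in Ω, v n x * Δ F x := by
        rw [setIntegral_eq_integral_of_forall_compl_eq_zero]
        intro x hx
        rw [hvz n x hx]; simp
      rw [e, ← integral_const_mul]
      refine setIntegral_congr_fun hΩ.measurableSet fun x hx => ?_
      rw [hvI n x hx]
      have h2 : Δ F x = -(lam * F x) := by linarith [heq x hx]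
      rw [h2]; ring
    have hgr : ∀ n, ∫ x, inner ℝ (gradient (v n) x) (gradient F x) = -∫ x, v n x * Δ F x := fun n =>
      green1 ((hvs n).of_le (WithTop.coe_le_coe.mpr le_top)) (hcs n) hF2
    have hid : ∫ x in Ω, ‖gradient F x‖ ^ 2 = lam * ∫ x in Ω, F x ^ 2 := by
      have h1 := D4.neg
      rw [neg_neg] at h1
      refine tendsto_nhds_unique D2 (h1.congr fun n => ?_)
      rw [hgr n]
    have hle : ∀ n, b * ∫ x, v n x ^ 2 ≤ ∫ x, ‖gradient (v n) x‖ ^ 2 := by
      intro n
      by_cases hex : ∃ x, v n x ≠ 0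
      · have h1 := hb ⟨v n, hvs n, hcs n, hsub n, hex, rfl⟩
        rwa [le_div_iff₀ (hsqpos _ (hvs n).continuous (hcs n) hex)] at h1
      · push Not at hex
        have : ∫ x, v n x ^ 2 = 0 := by simp [hex]
        rw [this, mul_zero]
        exact integral_nonneg fun x => by positivity
    have hfin : b * ∫ x in Ω, F x ^ 2 ≤ lam * ∫ x in Ω, F x ^ 2 := by
      rw [← hid]
      exact le_of_tendsto_of_tendsto' (D3.const_mul b) D1 hle
    have hpos2 : 0 < ∫ x in Ω, F x ^ 2 := by
      rw [setIntegral_pos_iff_support_of_nonneg_ae (Eventually.of_forall fun x => sq_nonneg _)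
        (hint _ (hF.continuous.pow 2))]
      refine lt_of_lt_of_le (hΩ.measure_pos volume hne) (measure_mono fun x hx => ⟨?_, hx⟩)
      rw [Function.mem_support]
      have := hpos x hx
      positivity
    exact le_of_mul_le_mul_right hfin hpos2

end Pool.Agent.Q175.TR
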