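import Pool.Agent.Q175.TR.Ray

/-! The first Dirichlet eigenfunction of an equilateral triangle. -/

set_option autoImplicit false

open MeasureTheory Laplacian InnerProductSpace Filter Topology Set
open scoped ContDiff

namespace Pool.Agent.Q175.TR

abbrev E2 := EuclideanSpace ℝ (Fin 2)

/-- the three altitude coordinates; their sum is `1` -/
noncomputable def h1 (x : E2) : ℝ := x 0
noncomputable def h2 (x : E2) : ℝ := (1 - x 0) / 2 + √3 / 2 * x 1
noncomputable def h3 (x : E2) : ℝ := (1 - x 0) / 2 - √3 / 2 * x 1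

/-- the open equilateral triangle -/
def T : Set E2 := {x | 0 < h1 x ∧ 0 < h2 x ∧ 0 < h3 x}

/-- the eigenfunction -/
noncomputable def F (x : E2) : ℝ :=
  2 / (3 * √3) * (Real.sin (2 * Real.pi * h1 x) + Real.sin (2 * Real.pi * h2 x) +
    Real.sin (2 * Real.pi * h3 x))

lemma hsum (x : E2) : h1 x + h2 x + h3 x = 1 := by unfold h1 h2 h3; ring

lemma triple {a b c : ℝ} (h : a + b + c = 1) :
    Real.sin (2 * Real.pi * a) + Real.sin (2 * Real.pi * b) + Real.sin (2 * Real.pi * c) =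
      4 * (Real.sin (Real.pi * a) * Real.sin (Real.pi * b) * Real.sin (Real.pi * c)) := by
  have hc : c = 1 - (a + b) := by linarith
  have e1 : 2 * Real.pi * c = 2 * Real.pi - (2 * (Real.pi * a) + 2 * (Real.pi * b)) := by rw [hc]; ring
  have e2 : Real.pi * c = Real.pi - (Real.pi * a + Real.pi * b) := by rw [hc]; ring
  rw [e1, e2, Real.sin_two_pi_sub, Real.sin_pi_sub]
  have e3 : 2 * Real.pi * a = 2 * (Real.pi * a) := by ring
  have e4 : 2 * Real.pi * b = 2 * (Real.pi * b) := by ring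
  rw [e3, e4]
  generalize Real.pi * a = A
  generalize Real.pi * b = B
  rw [Real.sin_add, Real.sin_add, Real.sin_two_mul, Real.sin_two_mul, Real.cos_two_mul, Real.cos_two_mul]
  have h1 := Real.sin_sq_add_cos_sq A
  have h2 := Real.sin_sq_add_cos_sq B
  have h3 : Real.cos A ^ 2 = 1 - Real.sin A ^ 2 := by linarith
  have h4 : Real.cos B ^ 2 = 1 - Real.sin B ^ 2 := by linarith
  rw [h3, h4]
  ring

lemma F_prod (x : E2) : F x = 8 / (3 * √3) *
    (Real.sin (Real.pi * h1 x) * Real.sin (Real.pi * h2 x) * Real.sin (Real.pi * h3 x)) := by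
  unfold F
  rw [triple (hsum x)]
  ring

lemma F_pos {x : E2} (hx : x ∈ T) : 0 < F x := by
  obtain ⟨a, b, c⟩ := hx
  have hs := hsum x
  have hpi := Real.pi_pos
  have key : ∀ t : ℝ, 0 < t → t < 1 → 0 < Real.sin (Real.pi * t) := fun t h0 h1 =>
    Real.sin_pos_of_pos_of_lt_pi (by positivity) (by nlinarith)
  have k1 := key (h1 x) a (by linarith)
  have k2 := key (h2 x) b (by linarith)
  have k3 := key (h3 x) c (by linarith)
  rw [F_prod]
  positivity

lemma h1_smooth : ContDiff ℝ ∞ h1 := by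
  unfold h1; fun_prop
lemma h2_smooth : ContDiff ℝ ∞ h2 := by
  unfold h2; fun_prop
lemma h3_smooth : ContDiff ℝ ∞ h3 := by
  unfold h3; fun_prop

lemma F_smooth : ContDiff ℝ ∞ F := by
  have a := h1_smooth
  have b := h2_smooth
  have c := h3_smooth
  unfold F
  fun_prop

lemma T_open : IsOpen T := by
  have a := h1_smooth.continuous
  have b := h2_smooth.continuous
  have c := h3_smooth.continuous
  exact (isOpen_lt continuous_const a).inter ((isOpen_lt continuous_const b).inter (isOpen_lt continuous_const c))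

lemma T_convex : Convex ℝ T := by
  intro x hx y hy a b ha hb hab
  obtain ⟨x1, x2, x3⟩ := hx
  obtain ⟨y1, y2, y3⟩ := hy
  have pos : ∀ s t : ℝ, 0 < s → 0 < t → 0 < a * s + b * t := by
    intro s t hs ht
    rcases eq_or_lt_of_le ha with h | h
    · have : b = 1 := by linarith
      rw [← h, this]; linarith
    · positivity
  refine ⟨?_, ?_, ?_⟩
  · have e : h1 (a • x + b • y) = a * h1 x + b * h1 y := by unfold h1; simp
    rw [e]; exact pos _ _ x1 y1
  · have e : h2 (a • x + b • y) = a * h2 x + b * h2 y := by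
      unfold h2; simp
      have : b = 1 - a := by linarith
      rw [this]; ring
    rw [e]; exact pos _ _ x2 y2
  · have e : h3 (a • x + b • y) = a * h3 x + b * h3 y := by
      unfold h3; simp
      have : b = 1 - a := by linarith
      rw [this]; ring
    rw [e]; exact pos _ _ x3 y3

lemma T_bdd : Bornology.IsBounded T := by
  rw [isBounded_iff_forall_norm_le]
  refine ⟨2, fun x hx => ?_⟩
  obtain ⟨a, b, c⟩ := hx
  unfold h1 at a
  unfold h2 at b
  unfold h3 at c
  have s3 : √3 ^ 2 = 3 := Real.sq_sqrt (by norm_num)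
  have s30 : 0 ≤ √3 := Real.sqrt_nonneg _
  rw [EuclideanSpace.norm_eq]
  simp only [Fin.sum_univ_two, Real.norm_eq_abs, sq_abs]
  rw [show (2:ℝ) = √(2 ^ 2) by rw [Real.sqrt_sq (by norm_num)]]
  apply Real.sqrt_le_sqrt
  have h0 : x 0 < 1 := by linarith
  have h5 : (√3 * x 1) ^ 2 < 1 := by
    rw [sq_lt_one_iff_abs_lt_one, abs_lt]
    constructor <;> linarith
  rw [mul_pow, s3] at h5
  nlinarith

lemma T_frontier {x : E2} (hx : x ∈ frontier T) : F x = 0 := by
  have a := h1_smooth.continuous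
  have b := h2_smooth.continuous
  have c := h3_smooth.continuous
  have hcl : closure T ⊆ {x | 0 ≤ h1 x ∧ 0 ≤ h2 x ∧ 0 ≤ h3 x} := by
    apply closure_minimal
    · intro y hy; exact ⟨hy.1.le, hy.2.1.le, hy.2.2.le⟩
    · exact (isClosed_le continuous_const a).inter ((isClosed_le continuous_const b).inter (isClosed_le continuous_const c))
  have h := hcl hx.1
  obtain ⟨h1', h2', h3'⟩ := h
  have hn : x ∉ T := by
    have := hx.2
    rwa [T_open.interior_eq] at this
  rw [F_prod]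
  by_cases e1 : h1 x = 0
  · rw [e1]; simp
  by_cases e2 : h2 x = 0
  · rw [e2]; simp
  by_cases e3 : h3 x = 0
  · rw [e3]; simp
  exact absurd ⟨lt_of_le_of_ne h1' (Ne.symm e1), lt_of_le_of_ne h2' (Ne.symm e2), lt_of_le_of_ne h3' (Ne.symm e3)⟩ hn

/-- Laplacian of `sin (c + L x)`. -/
lemma laplacian_sin (L : E2 →L[ℝ] ℝ) (c : ℝ) (x : E2) :
    Δ (fun x => Real.sin (c + L x)) x =
      -((L (EuclideanSpace.single 0 1)) ^ 2 + (L (EuclideanSpace.single 1 1)) ^ 2) * Real.sin (c + L x) := by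
  have hL : ∀ y, HasFDerivAt (fun x => c + L x) L y := fun y => L.hasFDerivAt.const_add c
  have hd : ∀ y, HasFDerivAt (fun x => Real.sin (c + L x)) (Real.cos (c + L y) • L) y := fun y =>
    (hL y).sin
  have hd2 : HasFDerivAt (fun y => Real.cos (c + L y) • L)
      ((-(Real.sin (c + L x)) • L).smulRight L) x := (hL x).cos.smul_const L
  rw [laplacian_eq_iteratedFDeriv_orthonormalBasis _ (EuclideanSpace.basisFun (Fin 2) ℝ)]
  have e1 : fderiv ℝ (fun x => Real.sin (c + L x)) = fun y => Real.cos (c + L y) • L :=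
    funext fun y => (hd y).fderiv
  simp only [iteratedFDeriv_two_apply, e1, hd2.fderiv, Fin.sum_univ_two]
  simp
  ring

noncomputable def L1 : E2 →L[ℝ] ℝ := (2 * Real.pi) • EuclideanSpace.proj (0 : Fin 2)
noncomputable def L2 : E2 →L[ℝ] ℝ :=
  (-Real.pi) • EuclideanSpace.proj (0 : Fin 2) + (Real.pi * √3) • EuclideanSpace.proj (1 : Fin 2)
noncomputable def L3 : E2 →L[ℝ] ℝ :=
  (-Real.pi) • EuclideanSpace.proj (0 : Fin 2) - (Real.pi * √3) • EuclideanSpace.proj (1 : Fin 2)

lemma F_eq (x : E2) : -Δ F x = 4 * Real.pi ^ 2 * F x := by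
  have s3 : √3 ^ 2 = 3 := Real.sq_sqrt (by norm_num)
  have e1 : ∀ x, 2 * Real.pi * h1 x = 0 + L1 x := fun x => by simp [L1, h1]
  have e2 : ∀ x, 2 * Real.pi * h2 x = Real.pi + L2 x := fun x => by simp [L2, h2]; ring
  have e3 : ∀ x, 2 * Real.pi * h3 x = Real.pi + L3 x := fun x => by simp [L3, h3]; ring
  have d : ∀ (c : ℝ) (L : E2 →L[ℝ] ℝ), ContDiff ℝ 2 (fun x => Real.sin (c + L x)) := fun c L => by
    fun_prop
  have hF : F = (2 / (3 * √3)) • ((fun x => Real.sin (0 + L1 x)) + (fun x => Real.sin (Real.pi + L2 x)) +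
      (fun x => Real.sin (Real.pi + L3 x))) := by
    ext x
    simp only [F, Pi.smul_apply, Pi.add_apply, smul_eq_mul, e1, e2, e3]
  have hl : Δ F x = (2 / (3 * √3)) * (Δ (fun x => Real.sin (0 + L1 x)) x +
      Δ (fun x => Real.sin (Real.pi + L2 x)) x + Δ (fun x => Real.sin (Real.pi + L3 x)) x) := by
    have k1 : ContDiffAt ℝ 2 ((fun x => Real.sin (0 + L1 x)) + (fun x => Real.sin (Real.pi + L2 x))) x :=
      ((d 0 L1).add (d _ L2)).contDiffAt
    have k2 : ContDiffAt ℝ 2 ((fun x => Real.sin (0 + L1 x)) + (fun x => Real.sin (Real.pi + L2 x)) +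
      (fun x => Real.sin (Real.pi + L3 x))) x := k1.add (d _ L3).contDiffAt
    rw [hF, laplacian_smul _ k2, k1.laplacian_add (d _ L3).contDiffAt,
      (d 0 L1).contDiffAt.laplacian_add (d _ L2).contDiffAt, smul_eq_mul]
  rw [hl, laplacian_sin, laplacian_sin, laplacian_sin]
  have a1 : L1 (EuclideanSpace.single 0 1) = 2 * Real.pi := by simp [L1]
  have a2 : L1 (EuclideanSpace.single 1 1) = 0 := by simp [L1]
  have b1 : L2 (EuclideanSpace.single 0 1) = -Real.pi := by simp [L2]
  have b2 : L2 (EuclideanSpace.single 1 1) = Real.pi * √3 := by simp [L2]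
  have c1 : L3 (EuclideanSpace.single 0 1) = -Real.pi := by simp [L3]
  have c2 : L3 (EuclideanSpace.single 1 1) = -(Real.pi * √3) := by simp [L3]
  rw [a1, a2, b1, b2, c1, c2]
  unfold F
  rw [e1, e2, e3]
  have q : (-Real.pi) ^ 2 + (Real.pi * √3) ^ 2 = 4 * Real.pi ^ 2 := by rw [mul_pow, s3]; ring
  have q' : (-Real.pi) ^ 2 + (-(Real.pi * √3)) ^ 2 = 4 * Real.pi ^ 2 := by rw [neg_sq (Real.pi * √3), mul_pow, s3]; ring
  rw [q, q']
  ring

lemma F_le_one {x : E2} (hx : x ∈ T) : F x ≤ 1 := by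
  obtain ⟨a, b, c⟩ := hx
  have hs := hsum x
  have hpi := Real.pi_pos
  have s3 : √3 ^ 2 = 3 := Real.sq_sqrt (by norm_num)
  have s30 : 0 < √3 := Real.sqrt_pos.mpr (by norm_num)
  rw [F_prod]
  set A := Real.pi * h1 x with hA
  have hA0 : 0 < A := by positivity
  have hA1 : A < Real.pi := by
    have : h1 x < 1 := by linarith
    nlinarith
  have hsA : 0 < Real.sin A := Real.sin_pos_of_pos_of_lt_pi hA0 hA1
  have hBC : Real.sin (Real.pi * h2 x) * Real.sin (Real.pi * h3 x) ≤ (1 + Real.cos A) / 2 := by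
    have e1 : Real.cos (Real.pi * h2 x + Real.pi * h3 x) = -Real.cos A := by
      have : Real.pi * h2 x + Real.pi * h3 x = Real.pi - A := by
        rw [hA]
        have : h3 x = 1 - h1 x - h2 x := by linarith
        rw [this]; ring
      rw [this, Real.cos_pi_sub]
    rw [Real.cos_add] at e1
    have e2 := Real.cos_le_one (Real.pi * h2 x - Real.pi * h3 x)
    rw [Real.cos_sub] at e2
    linarith
  have hprod : Real.sin A * Real.sin (Real.pi * h2 x) * Real.sin (Real.pi * h3 x) ≤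
      Real.sin A * ((1 + Real.cos A) / 2) := by
    rw [mul_assoc]
    exact mul_le_mul_of_nonneg_left hBC hsA.le
  have hmax : Real.sin A * (1 + Real.cos A) ≤ 3 * √3 / 4 := by
    apply le_of_sq_le_sq _ (by positivity)
    rw [mul_pow, div_pow, mul_pow, s3, Real.sin_sq]
    have hq : 0 ≤ (Real.cos A - 1 / 2) ^ 2 * ((Real.cos A + 3 / 2) ^ 2 + 1 / 2) := by positivity
    nlinarith
  calc 8 / (3 * √3) * (Real.sin A * Real.sin (Real.pi * h2 x) * Real.sin (Real.pi * h3 x))
      ≤ 8 / (3 * √3) * (3 * √3 / 8) := by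
        apply mul_le_mul_of_nonneg_left _ (by positivity)
        linarith
    _ = 1 := by field_simp

/-- the point `(a, 0)` -/
noncomputable def P (a : ℝ) : E2 := EuclideanSpace.single 0 a

lemma F_P (a : ℝ) : F (P a) = 2 / (3 * √3) *
    (Real.sin (2 * Real.pi * a) + 2 * Real.sin (Real.pi * (1 - a))) := by
  unfold F h1 h2 h3 P
  simp
  have : 2 * Real.pi * ((1 - a) / 2) = Real.pi * (1 - a) := by ring
  rw [this]
  ring

lemma P_mem {a : ℝ} (h0 : 0 < a) (h1 : a < 1) : P a ∈ T := by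
  refine ⟨?_, ?_, ?_⟩
  · unfold TR.h1 P; simpa
  · unfold h2 P; simp; linarith
  · unfold h3 P; simp; linarith

lemma F_P0 : F (P (1/3)) = 1 := by
  rw [F_P]
  have e1 : Real.sin (2 * Real.pi * (1/3)) = √3 / 2 := by
    have : 2 * Real.pi * (1/3) = Real.pi - Real.pi / 3 := by ring
    rw [this, Real.sin_pi_sub, Real.sin_pi_div_three]
  have e2 : Real.sin (Real.pi * (1 - 1/3)) = √3 / 2 := by
    have : Real.pi * (1 - 1/3) = Real.pi - Real.pi / 3 := by ring
    rw [this, Real.sin_pi_sub, Real.sin_pi_div_three]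
  rw [e1, e2]
  have s30 : 0 < √3 := Real.sqrt_pos.mpr (by norm_num)
  field_simp
  ring

lemma F_P2 : F (P (1/2)) = 4 / (3 * √3) := by
  rw [F_P]
  have e1 : Real.sin (2 * Real.pi * (1/2)) = 0 := by
    have : 2 * Real.pi * (1/2) = Real.pi := by ring
    rw [this, Real.sin_pi]
  have e2 : Real.sin (Real.pi * (1 - 1/2)) = 1 := by
    have : Real.pi * (1 - 1/2) = Real.pi / 2 := by ring
    rw [this, Real.sin_pi_div_two]
  rw [e1, e2]
  ring

lemma F_P1 : F (P (5/12)) = (1 + √2 + √3 * √2) / (3 * √3) := by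
  rw [F_P]
  have e1 : Real.sin (2 * Real.pi * (5/12)) = 1 / 2 := by
    have : 2 * Real.pi * (5/12) = Real.pi - Real.pi / 6 := by ring
    rw [this, Real.sin_pi_sub, Real.sin_pi_div_six]
  have e2 : Real.sin (Real.pi * (1 - 5/12)) = (√2 + √3 * √2) / 4 := by
    have : Real.pi * (1 - 5/12) = Real.pi / 3 + Real.pi / 4 := by ring
    rw [this, Real.sin_add, Real.sin_pi_div_three, Real.cos_pi_div_three, Real.sin_pi_div_four,
      Real.cos_pi_div_four]
    ring
  rw [e1, e2]
  ring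

lemma key : F (P (5/12)) ^ 4 < F (P (1/2)) := by
  rw [F_P1, F_P2]
  have s2 : √2 ^ 2 = 2 := Real.sq_sqrt (by norm_num)
  have s3 : √3 ^ 2 = 3 := Real.sq_sqrt (by norm_num)
  have a2 : √2 < 1.41422 := by
    rw [Real.sqrt_lt' (by norm_num)]; norm_num
  have a3 : √3 < 1.73206 := by
    rw [Real.sqrt_lt' (by norm_num)]; norm_num
  have b3 : 1.73205 < √3 := by
    rw [Real.lt_sqrt (by norm_num)]; norm_num
  have s20 : 0 ≤ √2 := Real.sqrt_nonneg _
  have s30 : 0 < √3 := Real.sqrt_pos.mpr (by norm_num)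
  rw [div_pow, div_lt_div_iff₀ (by positivity) (by positivity)]
  have e : (3 * √3) ^ 4 = 729 := by
    have : (3 * √3) ^ 4 = 81 * (√3 ^ 2) ^ 2 := by ring
    rw [this, s3]; norm_num
  rw [e]
  have h1 : (1 + √2 + √3 * √2) < 4.864 := by nlinarith
  have h0 : 0 ≤ (1 + √2 + √3 * √2) := by positivity
  have h4 : (1 + √2 + √3 * √2) ^ 4 < 4.864 ^ 4 := pow_lt_pow_left₀ h1 h0 (by norm_num)
  have h5 : (1 + √2 + √3 * √2) ^ 4 * (3 * √3) < 4.864 ^ 4 * (3 * 1.73206) := by
    apply mul_lt_mul h4 (by linarith) (by positivity) (by positivity)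
  refine h5.trans ?_
  norm_num

lemma not_convex : ¬ ConvexOn ℝ T (fun x => √(-Real.log (F x))) := by
  intro h
  have hm := h.2 (P_mem (a := 1/3) (by norm_num) (by norm_num)) (P_mem (a := 1/2) (by norm_num) (by norm_num))
    (show (0:ℝ) ≤ 1/2 by norm_num) (show (0:ℝ) ≤ 1/2 by norm_num) (by norm_num)
  have e : (1/2 : ℝ) • P (1/3) + (1/2 : ℝ) • P (1/2) = P (5/12) := by
    ext i
    fin_cases i <;> simp [P] <;> norm_num
  rw [e] at hm
  simp only [F_P0, Real.log_one, neg_zero, Real.sqrt_zero, smul_eq_mul, mul_zero, zero_add] at hm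
  have hP1 := P_mem (a := 5/12) (by norm_num) (by norm_num)
  have hP2 := P_mem (a := 1/2) (by norm_num) (by norm_num)
  have l1 : 0 ≤ -Real.log (F (P (5/12))) := by
    have := Real.log_nonpos (F_pos hP1).le (F_le_one hP1)
    linarith
  have l2 : 0 ≤ -Real.log (F (P (1/2))) := by
    have := Real.log_nonpos (F_pos hP2).le (F_le_one hP2)
    linarith
  have h2 : √(-Real.log (F (P (5/12)))) ^ 2 ≤ (1/2 * √(-Real.log (F (P (1/2))))) ^ 2 :=
    pow_le_pow_left₀ (Real.sqrt_nonneg _) hm 2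
  rw [mul_pow, Real.sq_sqrt l1, Real.sq_sqrt l2] at h2
  have h3 : Real.log (F (P (1/2))) ≤ Real.log (F (P (5/12)) ^ 4) := by
    rw [Real.log_pow]; push_cast; linarith
  rw [Real.log_le_log_iff (F_pos hP2) (by have := F_pos hP1; positivity)] at h3
  exact absurd key (not_lt.mpr h3)

end Pool.Agent.Q175.TR
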